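import Pool.Agent.D0H57.TDS.Red
import Pool.Agent.D0H57.TDS.Mem

/-!
# Deciding whether the total and the sub-total domination number are equal is NP-complete

Reduction from exact cover by 3-sets. Let `m` triples on `3 q` elements be given, `1 ≤ q ≤ m`, every
element in some triple. The graph has a hub with one leaf, one vertex for each triple, adjacent to
the hub, and `m` vertices for each element, adjacent to the triples which contain the element. It
is bipartite and has `3 q m + m + 2` vertices; the triples have degree `3 m + 1`, which is the
maximum degree, and the hub has degree `m + 1`. So `q` vertices have total degree at most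
`q (3 m + 1) < 3 q m + m + 2`, and the hub and `q` triples have total degree
`(m + 1) + q (3 m + 1) ≥ 3 q m + m + 2`: hence `sub_t = q + 1`. A total dominating set contains the
hub (the neighbour of the leaf), and its triples cover all elements. So there is one with `q + 1`
vertices if and only if there is an exact cover.

Membership in `NP`: `|D| ≤ sub_t(G)` holds for a nonempty `D` if and only if the sum of the
`k = |D| - 1` largest degrees is less than `n`, that is, if
`k d + ∑ max (0, deg v - d) < n` for some `d`.
-/

set_option autoImplicit false

namespace Pool.Agent.Results.MP_bfbf95_lc.TDSEqNPComplete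

open Pool.Agent.NPC Pool.Agent.H673R2 Pool.Agent.H692R2 Pool.Agent.D0H57.TDS

/-- **TDS-EQ is NP-complete**: given a finite graph `G` without isolated vertices (as its adjacency
matrix), it is NP-complete to decide whether `γ_t(G) = sub_t(G)`; it is NP-hard already for
bipartite graphs without isolated vertices (every problem in NP has a polynomial-time many-one
reduction to it which only produces such graphs). -/
theorem result : InNPP TDSEQ ∧ NPHardP TDSEQ ∧
    NPHardOn (fun G : FinGraph => NoIsolated G.graph ∧ G.graph.Colorable 2) TDSEQ := by
  have h : NPHardOn (fun G : FinGraph => NoIsolated G.graph ∧ G.graph.Colorable 2) TDSEQ :=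
    npHardOn_of hard Poly.id (fun _ hG => hG) (fun _ _ => Iff.rfl)
  exact ⟨inNP, h.toNPHardP, h⟩

end Pool.Agent.Results.MP_bfbf95_lc.TDSEqNPComplete
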